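import Mathlib
import Pool.Agent.T6.H48.KP.Space
import Pool.Agent.T6.H48.KP.Defs
import Pool.Agent.T6.H48.KP.COMPL
import Pool.Agent.T6.H48.KP.ABSC
import Pool.Agent.T6.H48.KP.MODN
import Pool.Agent.T6.H48.KP.DSUM
import Pool.Agent.T6.H48.KP.FOUR
import Pool.Agent.T6.H48.KP.HOLD
import Pool.Agent.T6.H48.KP.EXTR
import Pool.Agent.T6.H48.KP.EXTB
import Pool.Agent.T6.H48.KP.MOM4
import Pool.Agent.T6.H48.KP.SEPA
import Pool.Agent.T6.H48.KP.TOTB
import Pool.Agent.T6.H48.KP.PERT
import Pool.Agent.T6.H48.KP.CONT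
import Pool.Agent.T6.H48.KP.ISOM
import Pool.Agent.T6.H48.KP.SPLI
import Pool.Agent.T6.H48.KP.DISJ
import Pool.Agent.T6.H48.KP.CASE
import Pool.Agent.T6.H48.KP.SRCF
import Pool.Agent.T6.H48.KP.TGTF
import Pool.Agent.T6.H48.KP.SRCS
import Pool.Agent.T6.H48.KP.TGTS
import Pool.Agent.T6.H48.KP.UP32
import Pool.Agent.T6.H48.KP.WNUL
import Pool.Agent.T6.H48.KP.BDDS
import Pool.Agent.T6.H48.KP.SRCE
import Pool.Agent.T6.H48.KP.TGTL
import Pool.Agent.T6.H48.KP.TGTD
import Pool.Agent.T6.H48.KP.TARG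
import Pool.Agent.T6.H48.KP.KATO
import Pool.Agent.T6.H48.KP.NDH
import Pool.Agent.T6.H48.KP.VV
import Pool.Agent.T6.H48.KP.DDIS
import Pool.Agent.T6.H48.KP.PHIB
import Pool.Agent.T6.H48.KP.F0G
import Pool.Agent.T6.H48.KP.EXKD

/-!
# An Orlicz space with the Kato property which is not 2-DH

There is an Orlicz function `φ` such that `L_φ[0,1]` (complete, real) has the Kato property but is not
2-disjointly homogeneous: the negative answer to Q2, and hence to Q1.

Definitions from `Pool/Agent/T6/H48/KP/Space.lean`: `mu` is Lebesgue measure on `[0,1]`; `OrliczFun`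
the Orlicz functions (convex, nondecreasing, continuous on `[0,∞)`, `φ 0 = 0`, not identically `0`);
`OrliczFun.I Φ f = ∫ φ(|f|)`; `LPhi Φ` the space of classes of measurable functions `f` with
`∫ φ(|f| / s) < ∞` for some `s > 0`, with the Luxemburg norm
`‖f‖ = inf {s > 0 : ∫ φ(|f| / s) ≤ 1}`; `f.fn` a measurable representative of `f`.

Idea. `φ'(s) = s exp (w (log s))` where `w` is a slowly varying function of the distance of `log s`
to the set of the `4^k`, `k ≥ 1`, unbounded above and below in both directions. Normalized disjoint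
sequences whose heights stay near the heights `exp (4^k)` have subsequences equivalent to the basis
of the Orlicz sequence space of `F(a) = a^2 exp (v (log (1/a)))`, those whose heights stay away from
them have subsequences equivalent to the basis of `ℓ_2`, and `F` is incomparable with `t^2` in both
directions (`limsup F(a)/a^2 = ∞`, `liminf F(a)/a^2 = 0`), even after rescaling. If `T` is not
compact, there is a sequence `y_k` with an upper estimate by one of `ℓ_2`, `ℓ_F` and with `T y_k`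
seminormalized and weakly null, and then a subsequence of `T y_k` has a lower estimate by one of
`ℓ_2`, `ℓ_F`; the mixed cases are impossible, and in the others `T` is an isomorphism on the closed
span of a subsequence.
-/

set_option autoImplicit false

namespace Pool.Agent.Results.MP_8301f5_an.KatoNotTwoDH

open Pool.Agent.T6.H48.KP (OrliczFun LPhi mu)

/-- `T` is strictly singular: its restriction to a closed infinite-dimensional subspace `V` is never
an isomorphism onto its image (never bounded below). -/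
def StrictlySingular {E : Type*} [NormedAddCommGroup E] [NormedSpace ℝ E] (T : E →L[ℝ] E) : Prop :=
  ∀ V : Submodule ℝ E, IsClosed (V : Set E) → ¬ FiniteDimensional ℝ V →
    ¬ ∃ c : ℝ, 0 < c ∧ ∀ x ∈ V, c * ‖x‖ ≤ ‖T x‖

/-- The Kato property: the strictly singular operators on `E` are compact. -/
def KatoProperty (E : Type*) [NormedAddCommGroup E] [NormedSpace ℝ E] : Prop :=
  ∀ T : E →L[ℝ] E, StrictlySingular T → IsCompactOperator T

/-- The sequence `x` is equivalent to the unit vector basis of `ℓ_2`. -/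
def EquivL2 {E : Type*} [NormedAddCommGroup E] [NormedSpace ℝ E] (x : ℕ → E) : Prop :=
  ∃ C : ℝ, 0 < C ∧ ∀ (s : Finset ℕ) (a : ℕ → ℝ),
    C⁻¹ * √(∑ n ∈ s, a n ^ 2) ≤ ‖∑ n ∈ s, a n • x n‖ ∧
      ‖∑ n ∈ s, a n • x n‖ ≤ C * √(∑ n ∈ s, a n ^ 2)

/-- `L_φ[0,1]` is 2-DH: every normalized sequence of pairwise disjoint elements has a subsequence
equivalent to the unit vector basis of `ℓ_2`. -/
def TwoDH (Φ : OrliczFun) : Prop :=
  ∀ x : ℕ → LPhi Φ, (∀ n, ‖x n‖ = 1) →
    (∀ m n, m ≠ n → ∀ᵐ t ∂mu, (x m).fn t = 0 ∨ (x n).fn t = 0) →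
      ∃ κ : ℕ → ℕ, StrictMono κ ∧ EquivL2 fun n => x (κ n)

/-- **Theorem.** There is an Orlicz function `φ` such that the Banach space `L_φ[0,1]` has the Kato
property and is not 2-DH. -/
theorem result : ∃ Φ : OrliczFun, CompleteSpace (LPhi Φ) ∧ KatoProperty (LPhi Φ) ∧ ¬ TwoDH Φ := by
  open Pool.Agent.T6.H48.KP in
  have hTT : StmBDDS := mBDDS mHOLD (mEXTR mHOLD) mEXTB mMOM4 mFOUR
  have hD : StmDISJ := mDISJ mABSC
  have hW : StmWNUL := mWNUL mHOLD (mUP32 mDSUM)
  have hS : StmSRCE := mSRCE mCOMPL mSEPA (mSPLI mCOMPL mTOTB) hTT hD mCASE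
    (mSRCF mMODN mDSUM) (mSRCS mMODN mDSUM) hW
  have hT : StmTARG := mTARG (mTGTL mHOLD mEXTB mMOM4) (mTGTD mHOLD hD) mCASE
    (mTGTF mMODN mDSUM) (mTGTS mMODN mDSUM) mPERT mDSUM
  have hK : StmKATO := mKATO hS hT mISOM mCONT
  have hN : StmNDH := mNDH mDSUM
  have hP : StmPHIB := mPHIB mVV mDDIS
  have hE : StmEXKD := mEXKD mVV mDDIS hP (mF0G mVV)
  obtain ⟨Φ, h1, h2⟩ := mFIN hK hN hE
  exact ⟨Φ, mCOMPL Φ, h1, h2⟩

end Pool.Agent.Results.MP_8301f5_an.KatoNotTwoDH
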